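import Pool.Agent.Lib.MP_31386d_pr_ins.Crit

/-!
# MP_31386d_pr: the slab critical point of the random-cluster model

For every `d ≥ 3` and every real `q ≥ 1` the wired infinite volume measures exist and are unique,
and the slab critical points `p̂_c(q, L)` converge, as `L` tends to infinity, to the critical point
`p_c(q) = sup {p : θ(p, q) = 0}`.
-/

set_option autoImplicit false

namespace Pool.Agent.Results.MP_31386d_pr.SlabCriticalPoint

open Pool.Agent.MP31386dIns MeasureTheory Set Filter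
open scoped Topology

/-- Existence and uniqueness of the wired measure `φ¹_{p,q}` on `{0,1}^{E(ℤ^d)}` for all
`p ∈ [0, 1]`, and `lim_L p̂_c(q, L) = p_c(q) = sup {p : φ¹_{p,q}(0 ↔ ∞) = 0}`, for all `d ≥ 3` and
all real `q ≥ 1`. -/
theorem result (d : ℕ) (hd : 3 ≤ d) (q : ℝ) (hq : 1 ≤ q) :
    (∀ p ∈ Icc (0 : ℝ) 1, ∃! φ : Measure (Config d), IsWired q p φ) ∧
    ∀ φ : ℝ → Measure (Config d), (∀ p ∈ Icc (0 : ℝ) 1, IsWired q p (φ p)) →
      Tendsto (fun L : ℕ => pHat d q L) atTop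
        (𝓝 (sSup {p : ℝ | p ∈ Icc (0 : ℝ) 1 ∧ theta (φ p) = 0})) := by
  refine ⟨fun p hp => ?_, fun φ hφ => ?_⟩
  · obtain ⟨φ, hφ⟩ := exists_isWired (d := d) hq hp
    exact ⟨φ, hφ, fun ψ hψ => isWired_unique hψ hφ⟩
  · rw [crit_eq (by omega) hq hφ]
    exact tendsto_pHat hd hq

end Pool.Agent.Results.MP_31386d_pr.SlabCriticalPoint
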